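import Pool.Agent.Helper71.PR.Basic

/-!
# MP_af9e5e_al, project PR of helper71, packet D: the key step
-/

set_option autoImplicit false

namespace Pool.Agent.Helper2.PR

open Matrix Filter Topology Pool.Agent.Helper71.PR

theorem n1_nonneg {ι : Type} [Fintype ι] (X : Matrix ι ι ℝ) : 0 ≤ n1 X :=
  Finset.sum_nonneg fun _ _ => Finset.sum_nonneg fun _ _ => abs_nonneg _

theorem le_n1 {ι : Type} [Fintype ι] (X : Matrix ι ι ℝ) (i j : ι) : |X i j| ≤ n1 X := by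
  have h1 : |X i j| ≤ ∑ b, |X i b| :=
    Finset.single_le_sum (f := fun b => |X i b|) (fun _ _ => abs_nonneg _) (Finset.mem_univ j)
  have h2 : ∑ b, |X i b| ≤ n1 X :=
    Finset.single_le_sum (f := fun a => ∑ b, |X a b|)
      (fun _ _ => Finset.sum_nonneg fun _ _ => abs_nonneg _) (Finset.mem_univ i)
  exact h1.trans h2

theorem n1_pos {ι : Type} [Fintype ι] [DecidableEq ι] [Nonempty ι] (X : Matrix ι ι ℝ)
    (h : X.det ≠ 0) : 0 < n1 X := by
  rcases (n1_nonneg X).lt_or_eq with h1 | h1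
  · exact h1
  · exfalso
    apply h
    have h2 : X = 0 := by
      ext i j
      have h3 := le_n1 X i j
      rw [← h1] at h3
      exact abs_nonpos_iff.1 h3
    rw [h2, Matrix.det_zero]

theorem n1_cp_pos {n : ℕ} (x : SLn n) (j : Fin n) : 0 < n1 (cp ((j : ℕ) + 1) x.1) := by
  have : Nonempty (JS ((j : ℕ) + 1) n) := ⟨bd j j le_rfl⟩
  refine n1_pos _ (cp_det_ne _ _ ?_)
  rw [x.2]
  exact one_ne_zero

/-- a subsequence along which bounded families of matrices converge -/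
theorem subseq {n : ℕ} (N : ℕ → ∀ j : Fin n, JS ((j : ℕ) + 1) n → JS ((j : ℕ) + 1) n → ℝ)
    (hN : ∀ m j I K, |N m j I K| ≤ 1) :
    ∃ (Y : ∀ j : Fin n, JS ((j : ℕ) + 1) n → JS ((j : ℕ) + 1) n → ℝ) (φ : ℕ → ℕ),
      StrictMono φ ∧ Tendsto (fun m => N (φ m)) atTop (𝓝 Y) := by
  have hc : IsCompact (Set.univ.pi fun j : Fin n => Set.univ.pi fun _ : JS ((j : ℕ) + 1) n =>
      Set.univ.pi fun _ : JS ((j : ℕ) + 1) n => Set.Icc (-1 : ℝ) 1) :=
    isCompact_univ_pi fun _ => isCompact_univ_pi fun _ => isCompact_univ_pi fun _ => isCompact_Icc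
  obtain ⟨Y, -, φ, hφ, hY⟩ := hc.tendsto_subseq (x := N) (fun m => by
    intro j _ I _ K _
    exact abs_le.1 (hN m j I K))
  exact ⟨Y, φ, hφ, hY⟩

theorem gap_comp {n : ℕ} {a : ℕ → Fin n → ℝ} (h : Gap a) {φ : ℕ → ℕ} (hφ : StrictMono φ) :
    Gap fun m => a (φ m) :=
  ⟨hφ.tendsto_atTop.eventually h.1, fun i j hij => (h.2 i j hij).comp hφ.tendsto_atTop⟩

theorem gap_mul {n : ℕ} {a b d : ℕ → Fin n → ℝ} {C : ℝ} (ha : Gap a) (hb : Gap b)
    (hd : ∀ m j, d m j ≠ 0) (hC : ∀ᶠ m in atTop, ∀ i j, i < j → |d m j| ≤ C * |d m i|) :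
    Gap fun m i => a m i * d m i * b m i := by
  refine ⟨?_, fun i j hij => ?_⟩
  · filter_upwards [ha.1, hb.1] with m h1 h2 i
    exact mul_ne_zero (mul_ne_zero (h1 i) (hd m i)) (h2 i)
  · have h1 : Tendsto (fun m => (a m j / a m i) * (b m j / b m i)) atTop (𝓝 0) := by
      simpa using (ha.2 i j hij).mul (hb.2 i j hij)
    have h2 : Tendsto (fun m => C * |(a m j / a m i) * (b m j / b m i)|) atTop (𝓝 0) := by
      simpa using h1.abs.const_mul C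
    refine squeeze_zero_norm' ?_ h2
    filter_upwards [hC] with m hm
    have h3 := hm i j hij
    have h4 : 0 < |d m i| := abs_pos.2 (hd m i)
    have h5 : |d m j / d m i| ≤ C := by
      rw [abs_div, div_le_iff₀ h4]
      exact h3
    have h6 : a m j * d m j * b m j / (a m i * d m i * b m i) =
        (d m j / d m i) * ((a m j / a m i) * (b m j / b m i)) := by
      rw [div_mul_div_comm, div_mul_div_comm]
      congr 1 <;> ring
    rw [Real.norm_eq_abs, h6, abs_mul]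
    exact mul_le_mul_of_nonneg_right h5 (abs_nonneg _)

/-- the matrix identity -/
theorem mat_id {n : ℕ} (p q p' q' L U h x h' : Mt n) (a b d : Fin n → ℝ) (ha : ∀ i, a i ≠ 0)
    (hb : ∀ i, b i ≠ 0) (hU : UppU U) (hZ : q⁻¹ * h * x * h' * p' = L * diagonal d * U) :
    p * diagonal a * q⁻¹ * h * x * h' * (p' * diagonal b * q'⁻¹) =
      p * (diagonal a * L * diagonal (fun i => (a i)⁻¹)) *
        diagonal (fun i => a i * d i * b i) *
        (q' * (diagonal (fun i => (b i)⁻¹) * U * diagonal b)⁻¹)⁻¹ := by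
  have hDb : (diagonal (fun i => (b i)⁻¹) : Mt n) * diagonal b = 1 := by
    rw [Matrix.diagonal_mul_diagonal, ← Matrix.diagonal_one]
    congr 1
    funext i
    exact inv_mul_cancel₀ (hb i)
  have hDU : IsUnit (diagonal (fun i => (b i)⁻¹) * U * diagonal b : Mt n).det := by
    rw [Matrix.det_mul, Matrix.det_mul, hU.det, mul_one, ← Matrix.det_mul, hDb, Matrix.det_one]
    exact isUnit_one
  have hD : (diagonal (fun i => (a i)⁻¹) : Mt n) *
      (diagonal (fun i => a i * d i * b i) * diagonal (fun i => (b i)⁻¹)) =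
      diagonal d := by
    rw [Matrix.diagonal_mul_diagonal, Matrix.diagonal_mul_diagonal]
    congr 1
    funext i
    have h6 := ha i
    have h7 := hb i
    field_simp
  rw [Matrix.mul_inv_rev, Matrix.nonsing_inv_nonsing_inv _ hDU]
  calc p * diagonal a * q⁻¹ * h * x * h' * (p' * diagonal b * q'⁻¹)
      = p * diagonal a * (q⁻¹ * h * x * h' * p') * diagonal b * q'⁻¹ := by
        simp only [Matrix.mul_assoc]
    _ = p * diagonal a * (L * diagonal d * U) * diagonal b * q'⁻¹ := by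
        rw [hZ]
    _ = p * diagonal a * (L * (diagonal (fun i => (a i)⁻¹) *
      (diagonal (fun i => a i * d i * b i) * diagonal (fun i => (b i)⁻¹))) * U) * diagonal b * q'⁻¹ := by
        rw [hD]
    _ = _ := by
        simp only [Matrix.mul_assoc]

/-- elements outside the translates -/
theorem out_lem (h5 : G_PC) {G : Type} [Group G] (s : ℕ) (hcov : ¬ Cov G s) (g g' : G)
    (ι : Type) [Fintype ι] (e e' : ι → G) :
    ∃ x : G, ∀ i, g * e i * x * e' i * g' ∉ PRA G s := by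
  classical
  unfold Cov at hcov
  push Not at hcov
  obtain ⟨x, hx⟩ := hcov (Finset.univ.image fun i => (e' i * g' * g * e i)⁻¹)
  refine ⟨x, fun i hmem => ?_⟩
  have h6 := hx _ (Finset.mem_image.2 ⟨i, Finset.mem_univ _, rfl⟩)
  apply h6
  have h7 := h5 G s _ (e' i * g') hmem
  have h8 : e' i * g' * (g * e i * x * e' i * g') * (e' i * g')⁻¹ = (e' i * g' * g * e i)⁻¹⁻¹ * x := by
    group
  rw [h8] at h7
  exact h7

/-- a constant value on a subsequence -/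
theorem const_subseq {α : Type} (E : Finset α) (e : ℕ → α) (he : ∀ m, e m ∈ E) :
    ∃ e0 ∈ E, ∃ φ : ℕ → ℕ, StrictMono φ ∧ ∀ m, e (φ m) = e0 := by
  classical
  have hfreq : ∃ e0 ∈ E, ∃ᶠ m in atTop, e m = e0 := by
    by_contra hcon
    have h6 : ∀ᶠ m in atTop, ∀ e0 ∈ E, ¬ e m = e0 := by
      rw [Filter.eventually_all_finset]
      intro e0 he0
      by_contra h7
      exact hcon ⟨e0, he0, h7⟩
    obtain ⟨m, hm⟩ := h6.exists
    exact hm (e m) (he m) rfl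
  obtain ⟨e0, he0, hfreq⟩ := hfreq
  obtain ⟨φ, hφ, hφe⟩ := extraction_of_frequently_atTop hfreq
  exact ⟨e0, he0, φ, hφ, hφe⟩

/-- the scaled compounds of a product converge -/
theorem gen_lem {n : ℕ} (t : ℕ → Fin n → ℝ) (A B x : ℕ → Mt n) (A0 B0 h h' : Mt n)
    (Y : ∀ j : Fin n, Matrix (JS ((j : ℕ) + 1) n) (JS ((j : ℕ) + 1) n) ℝ)
    (hA : Tendsto A atTop (𝓝 A0)) (hB : Tendsto B atTop (𝓝 B0)) (j : Fin n)
    (hY : Tendsto (fun m => t m j • cp ((j : ℕ) + 1) (x m)) atTop (𝓝 (Y j))) :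
    Tendsto (fun m => t m j • cp ((j : ℕ) + 1) (A m * h * x m * h' * B m)) atTop
      (𝓝 (cp ((j : ℕ) + 1) A0 * cp ((j : ℕ) + 1) h * Y j * cp ((j : ℕ) + 1) h' *
        cp ((j : ℕ) + 1) B0)) := by
  have h6 : (fun m => t m j • cp ((j : ℕ) + 1) (A m * h * x m * h' * B m)) =
      fun m => cp ((j : ℕ) + 1) (A m) * cp ((j : ℕ) + 1) h *
        (t m j • cp ((j : ℕ) + 1) (x m)) * cp ((j : ℕ) + 1) h' *
          cp ((j : ℕ) + 1) (B m) := by
    funext m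
    rw [cp_mul, cp_mul, cp_mul, cp_mul, Matrix.mul_smul, Matrix.smul_mul, Matrix.smul_mul]
  rw [h6]
  exact ((((cp_tendsto _ hA).mul tendsto_const_nhds).mul hY).mul tendsto_const_nhds).mul
    (cp_tendsto _ hB)

/-- the part of the proof after the choice of the subsequence -/
theorem d_core (h2 : G_LDUS) (h3 : G_CJ) (h4 : G_R4) (n : ℕ)
    (p q p' q' : ℕ → Mt n) (a b : ℕ → Fin n → ℝ) (P Q P' Q' u l : Mt n)
    (hp : Tendsto p atTop (𝓝 P)) (hq : Tendsto q atTop (𝓝 Q)) (hp' : Tendsto p' atTop (𝓝 P'))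
    (hq' : Tendsto q' atTop (𝓝 Q')) (hP : P.det ≠ 0) (hQ : Q.det ≠ 0) (hQ' : Q'.det ≠ 0)
    (ha : Gap a) (hb : Gap b) (hu : UppU u) (hl : LowT l) (hld : l.det ≠ 0) (hPu : P * u = Q' * l)
    (x : ℕ → Mt n) (h h' : Mt n) (t : ℕ → Fin n → ℝ) (ht : ∀ m j, 0 < t m j) (c : ℝ) (hc : 0 < c)
    (Y : ∀ j : Fin n, Matrix (JS ((j : ℕ) + 1) n) (JS ((j : ℕ) + 1) n) ℝ)
    (hY : ∀ j : Fin n, Tendsto (fun m => t m j • cp ((j : ℕ) + 1) (x m)) atTop (𝓝 (Y j)))
    (hlow : ∀ m (j : Fin n), c ≤ t m j * |ld j (Q⁻¹ * h * x m * h' * P')|) (ε : ℝ) (hε : 0 < ε) :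
    ∀ᶠ m in atTop, ∃ (k : Mt n) (μ : Fin n → ℝ),
      RegF (p m * diagonal (a m) * (q m)⁻¹ * h * x m * h' * (p' m * diagonal (b m) * (q' m)⁻¹)) k μ ∧
        near k (P * u) ε := by
  have hlead : ∀ j : Fin n, (cp ((j : ℕ) + 1) Q⁻¹ * cp ((j : ℕ) + 1) h * Y j * cp ((j : ℕ) + 1) h' *
        cp ((j : ℕ) + 1) P') (bd j j le_rfl) (bd j j le_rfl) ≠ 0 := by
    intro j hzero
    have h6 := gen_lem t (fun _ => Q⁻¹) (fun _ => P') x Q⁻¹ P' h h' Y tendsto_const_nhds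
      tendsto_const_nhds j (hY j)
    have h7 : Tendsto (fun m => t m j * ld j (Q⁻¹ * h * x m * h' * P')) atTop
        (𝓝 ((cp ((j : ℕ) + 1) Q⁻¹ * cp ((j : ℕ) + 1) h * Y j * cp ((j : ℕ) + 1) h' *
        cp ((j : ℕ) + 1) P') (bd j j le_rfl) (bd j j le_rfl))) :=
      (tendsto_pi_nhds.1 ((tendsto_pi_nhds.1 h6) (bd j j le_rfl))) (bd j j le_rfl)
    rw [hzero] at h7
    have h8 := h7.abs
    rw [abs_zero] at h8
    have h9 : c ≤ 0 := by
      refine ge_of_tendsto' h8 fun m => ?_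
      rw [abs_mul, abs_of_pos (ht m j)]
      exact hlow m j
    linarith
  obtain ⟨L, U, d, L0, U0, C, hL, hU, -, -, hLt, hUt, -, -, hd, hZd, hC, -⟩ :=
    h2 n (fun m => (q m)⁻¹ * h * x m * h' * p' m) t _
      (fun j => gen_lem t (fun m => (q m)⁻¹) p' x Q⁻¹ P' h h' Y (tendsto_inv_mt hq hQ) hp' j (hY j)) hlead
  have hLc := (h3 n _ ha).1 L L0 hL hLt
  have hUc := (h3 n _ hb).2 U U0 hU hUt
  have hdet1 : (1 : Mt n).det ≠ 0 := by
    rw [Matrix.det_one]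
    exact one_ne_zero
  have hpt : Tendsto (fun m => p m * (diagonal (a m) * L m * diagonal (fun i => (a m i)⁻¹)))
      atTop (𝓝 P) := by
    have h6 := hp.mul hLc
    rw [mul_one] at h6
    exact h6
  have hqt : Tendsto (fun m => q' m *
      (diagonal (fun i => (b m i)⁻¹) * U m * diagonal (b m))⁻¹) atTop (𝓝 Q') := by
    have h6 := hq'.mul (tendsto_inv_mt hUc hdet1)
    rw [inv_one, mul_one] at h6
    exact h6
  have hgap := gap_mul ha hb hd hC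
  have hfin := h4 n _ _ _ P Q' u l hpt hqt hP hQ' hgap hu hl hld hPu ε hε
  filter_upwards [hfin, hZd, ha.1, hb.1] with m hm1 hm2 hm3 hm4
  obtain ⟨k, μ, hreg, hnear⟩ := hm1
  refine ⟨k, μ, ?_, hnear⟩
  rw [mat_id (p m) (q m) (p' m) (q' m) (L m) (U m) h (x m) h' (a m) (b m) (d m) hm3 hm4 (hU m) hm2]
  exact hreg

theorem coe5 {n : ℕ} (Γ : Subgroup (SLn n)) (a b c d e : Γ) :
    (a * b * c * d * e).1.1 = a.1.1 * b.1.1 * c.1.1 * d.1.1 * e.1.1 := by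
  simp only [Subgroup.coe_mul, Matrix.SpecialLinearGroup.coe_mul]

/-- Packet PR-D. -/
theorem d_lem (h1 : G_E) (h2 : G_LDUS) (h3 : G_CJ) (h4 : G_R4) (h5 : G_PC) : G_D := by
  classical
  intro n hn Γ hZ s hcov g g' p q p' q' a b P Q P' Q' u l hg hg' hgd hg'd hp hq hp' hq' hP hQ hP' hQ'
    ha hb hu hl hld hPu ε hε
  have hQi : (Q⁻¹).det ≠ 0 := by
    rw [Matrix.det_nonsing_inv, Ring.inverse_eq_inv']
    exact inv_ne_zero hQ
  obtain ⟨E, c, hc, hE, hEx⟩ := h1 n hn Γ hZ Q⁻¹ P' hQi hP'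
  -- the elements outside the translates
  have hx : ∀ m, ∃ x : Γ, ∀ e : {e // e ∈ E},
      (⟨g m, hg m⟩ : Γ) * ⟨e.1.1, (hE e.1 e.2).1⟩ * x * ⟨e.1.2, (hE e.1 e.2).2⟩ * ⟨g' m, hg' m⟩ ∉
        PRA Γ s := fun m =>
    out_lem h5 s hcov ⟨g m, hg m⟩ ⟨g' m, hg' m⟩ {e // e ∈ E} (fun e => ⟨e.1.1, (hE e.1 e.2).1⟩)
      (fun e => ⟨e.1.2, (hE e.1 e.2).2⟩)
  choose x hx using hx
  have he : ∀ m, ∃ e ∈ E, ∀ j : Fin n,
      c * n1 (cp ((j : ℕ) + 1) (x m).1.1) ≤ |ld j (Q⁻¹ * e.1.1 * (x m).1.1 * e.2.1 * P')| :=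
    fun m => hEx (x m).1
  choose e heE he using he
  -- a constant pair
  obtain ⟨e0, he0, φ1, hφ1, hφ1e⟩ := const_subseq E e heE
  -- convergence of the normalized compounds
  obtain ⟨Y, φ2, hφ2, hY⟩ := subseq (n := n)
    (fun m j => (n1 (cp ((j : ℕ) + 1) (x (φ1 m)).1.1))⁻¹ • cp ((j : ℕ) + 1) (x (φ1 m)).1.1) (by
      intro m j I K
      have h6 := n1_cp_pos (x (φ1 m)).1 j
      have h7 : |(n1 (cp ((j : ℕ) + 1) (x (φ1 m)).1.1))⁻¹ * cp ((j : ℕ) + 1) (x (φ1 m)).1.1 I K| ≤ 1 := by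
        rw [abs_mul, abs_inv, abs_of_pos h6, inv_mul_le_iff₀ h6, mul_one]
        exact le_n1 _ I K
      exact h7)
  have hφ : StrictMono fun m => φ1 (φ2 m) := hφ1.comp hφ2
  have hφt := hφ.tendsto_atTop
  have hcore := d_core h2 h3 h4 n (fun m => p (φ1 (φ2 m))) (fun m => q (φ1 (φ2 m)))
    (fun m => p' (φ1 (φ2 m))) (fun m => q' (φ1 (φ2 m))) (fun m => a (φ1 (φ2 m)))
    (fun m => b (φ1 (φ2 m))) P Q P' Q' u l (hp.comp hφt) (hq.comp hφt) (hp'.comp hφt)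
    (hq'.comp hφt) hP hQ hQ' (gap_comp ha hφ) (gap_comp hb hφ) hu hl hld hPu
    (fun m => (x (φ1 (φ2 m))).1.1) e0.1.1 e0.2.1
    (fun m j => (n1 (cp ((j : ℕ) + 1) (x (φ1 (φ2 m))).1.1))⁻¹)
    (fun m j => inv_pos.2 (n1_cp_pos (x (φ1 (φ2 m))).1 j)) c hc Y
    (fun j => (tendsto_pi_nhds.1 hY) j) (fun m j => by
      have h10 := he (φ1 (φ2 m)) j
      rw [hφ1e (φ2 m)] at h10
      have h11 := n1_cp_pos (x (φ1 (φ2 m))).1 j
      rw [← div_eq_inv_mul, le_div_iff₀ h11]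
      exact h10) ε hε
  obtain ⟨m, hm⟩ := ((hcore.and (hφt.eventually hgd)).and (hφt.eventually hg'd)).exists
  obtain ⟨⟨hm1, hgm⟩, hg'm⟩ := hm
  obtain ⟨k, μ, hreg, hnear⟩ := hm1
  have hm2 := hx (φ1 (φ2 m)) ⟨e0, he0⟩
  refine ⟨_, hm2, k, μ, ?_, hnear⟩
  rw [coe5]
  have h12 : RegF ((g (φ1 (φ2 m))).1 * e0.1.1 * (x (φ1 (φ2 m))).1.1 * e0.2.1 *
      (g' (φ1 (φ2 m))).1) k μ := by
    rw [hgm, hg'm]
    exact hreg
  exact h12

end Pool.Agent.Helper2.PR
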