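import Pool.Agent.Helper71.PR.Goals

/-!
# MP_af9e5e_al, project PR of helper71, packet N1: matrix coefficients of exterior powers
-/

set_option autoImplicit false

namespace Pool.Agent.Helper2.PR

open Matrix Filter Topology Pool.Agent.Helper71.PR

/-- the matrix coefficient -/
noncomputable def mc {n r : ℕ} (α β : JS r n → ℝ) (A : Mt n) : ℝ := α ⬝ᵥ (cp r A *ᵥ β)

theorem cp_smul {n : ℕ} (r : ℕ) (c : ℝ) (A : Mt n) : cp r (c • A) = c ^ r • cp r A := by
  ext I K
  show ((c • A).submatrix I.emb K.emb).det = c ^ r * (A.submatrix I.emb K.emb).det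
  have h : (c • A).submatrix I.emb K.emb = c • A.submatrix I.emb K.emb := rfl
  rw [h, Matrix.det_smul, Fintype.card_fin]

theorem mc_smul {n r : ℕ} (α β : JS r n → ℝ) (c : ℝ) (A : Mt n) :
    mc α β (c • A) = c ^ r * mc α β A := by
  unfold mc
  rw [cp_smul, Matrix.smul_mulVec, dotProduct_smul, smul_eq_mul]

theorem mc_sum {n r : ℕ} (α β : JS r n → ℝ) (A : Mt n) :
    mc α β A = ∑ I, ∑ K, α I * β K * (A.submatrix I.emb K.emb).det := by
  unfold mc
  simp only [dotProduct, mulVec, Finset.mul_sum]
  refine Finset.sum_congr rfl fun I _ => Finset.sum_congr rfl fun K _ => ?_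
  show α I * ((A.submatrix I.emb K.emb).det * β K) = _
  ring

theorem mc_cont {n r : ℕ} (α β : JS r n → ℝ) : Continuous (mc (n := n) α β) := by
  have h := cp_continuous (n := n) r
  unfold mc
  exact (continuous_const).dotProduct (h.matrix_mulVec continuous_const)

theorem mc_pos {n r : ℕ} (α β : JS r n → ℝ) (h0 : ∀ g : SLn n, mc α β g.1 = 0) (hn : n ≠ 0)
    (A : Mt n) (hA : 0 < A.det) : mc α β A = 0 := by
  set c : ℝ := A.det ^ (1 / (n : ℝ)) with hc
  have hc0 : 0 < c := Real.rpow_pos_of_pos hA _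
  have hcn : c ^ n = A.det := by
    rw [hc, ← Real.rpow_natCast, ← Real.rpow_mul hA.le, one_div,
      inv_mul_cancel₀ (by exact_mod_cast hn), Real.rpow_one]
  have hdet : (c⁻¹ • A).det = 1 := by
    rw [Matrix.det_smul, Fintype.card_fin, inv_pow, hcn, inv_mul_cancel₀ hA.ne']
  have h1 := h0 ⟨c⁻¹ • A, hdet⟩
  have h2 : mc α β (c • (c⁻¹ • A)) = 0 := by rw [mc_smul, h1, mul_zero]
  rwa [smul_smul, mul_inv_cancel₀ hc0.ne', one_smul] at h2

theorem mc_all {n r : ℕ} (α β : JS r n → ℝ) (h0 : ∀ g : SLn n, mc α β g.1 = 0) (A : Mt n) :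
    mc α β A = 0 := by
  rcases Nat.eq_zero_or_pos n with rfl | hn
  · have h1 := h0 1
    have h2 : A = (1 : SLn 0).1 := Subsingleton.elim _ _
    rw [h2]
    exact h1
  · -- the polynomial
    set p : Polynomial ℝ := ∑ I : JS r n, ∑ K : JS r n, Polynomial.C (α I * β K) *
      (((1 : Matrix (Fin n) (Fin n) (Polynomial ℝ)) +
        (Polynomial.X : Polynomial ℝ) • A.map Polynomial.C).submatrix I.emb K.emb).det with hp
    have hev : ∀ t : ℝ, p.eval t = mc α β (1 + t • A) := by
      intro t
      rw [mc_sum, hp, Polynomial.eval_finset_sum]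
      refine Finset.sum_congr rfl fun I _ => ?_
      rw [Polynomial.eval_finset_sum]
      refine Finset.sum_congr rfl fun K _ => ?_
      rw [Polynomial.eval_mul, Polynomial.eval_C]
      congr 1
      have h3 := RingHom.map_det (Polynomial.evalRingHom t)
        (((1 : Matrix (Fin n) (Fin n) (Polynomial ℝ)) +
        (Polynomial.X : Polynomial ℝ) • A.map Polynomial.C).submatrix I.emb K.emb)
      rw [Polynomial.coe_evalRingHom] at h3
      rw [h3]
      congr 1
      ext a b
      by_cases hab : I.emb a = K.emb b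
      · simp [hab]
        ring
      · simp [Matrix.one_apply, hab]
        ring
    have hcont : Continuous fun t : ℝ => ((1 : Mt n) + t • A).det :=
      Continuous.matrix_det (continuous_const.add (continuous_id.smul continuous_const))
    have hnb : {t : ℝ | 0 < ((1 : Mt n) + t • A).det} ∈ 𝓝 (0 : ℝ) := by
      refine (isOpen_lt continuous_const hcont).mem_nhds ?_
      simp
    have hinf : {t : ℝ | 0 < ((1 : Mt n) + t • A).det}.Infinite := infinite_of_mem_nhds _ hnb
    have hp0 : p = 0 := by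
      refine Polynomial.eq_zero_of_infinite_isRoot p (hinf.mono fun t ht => ?_)
      show p.eval t = 0
      rw [hev]
      exact mc_pos α β h0 hn.ne' _ ht
    have h1 : ∀ t : ℝ, mc α β (1 + t • A) = 0 := by
      intro t
      rw [← hev, hp0, Polynomial.eval_zero]
    have h2 : ∀ s : ℝ, s ≠ 0 → mc α β (s • (1 : Mt n) + A) = 0 := by
      intro s hs
      have h3 : s • (1 : Mt n) + A = s • (1 + s⁻¹ • A) := by
        rw [smul_add, smul_smul, mul_inv_cancel₀ hs, one_smul]
      rw [h3, mc_smul, h1, mul_zero]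
    have h3 : Continuous fun s : ℝ => mc α β (s • (1 : Mt n) + A) :=
      (mc_cont α β).comp ((continuous_id.smul continuous_const).add continuous_const)
    have h4 : (fun s : ℝ => mc α β (s • (1 : Mt n) + A)) = fun _ => 0 :=
      h3.ext_on (dense_compl_singleton (0 : ℝ)) continuous_const fun s hs => h2 s hs
    have h5 := congrFun h4 0
    simpa using h5

theorem emb_mem {r n : ℕ} (I : JS r n) (a : Fin r) : I.emb a ∈ I.1 :=
  Finset.orderEmbOfFin_mem I.1 I.2 a

theorem exists_emb {r n : ℕ} (I : JS r n) {i : Fin n} (hi : i ∈ I.1) : ∃ a, I.emb a = i := by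
  have hi' : i ∈ Set.range (I.1.orderEmbOfFin I.2) := by
    rw [Finset.range_orderEmbOfFin]
    exact hi
  exact hi'

theorem exists_not {r n : ℕ} {I K : JS r n} (h : I ≠ K) : ∃ i ∈ I.1, i ∉ K.1 := by
  by_contra hcon
  push Not at hcon
  apply h
  apply Subtype.ext
  exact Finset.eq_of_subset_of_card_le hcon (by rw [I.2, K.2])

/-- Packet PR-N1. -/
theorem n1_lem : G_N1 := by
  classical
  intro n r α β hα hβ
  by_contra hcon
  push Not at hcon
  have hall := mc_all α β hcon
  obtain ⟨I, hI⟩ : ∃ I, α I ≠ 0 := by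
    by_contra h
    push Not at h
    exact hα (funext h)
  obtain ⟨K, hK⟩ : ∃ K, β K ≠ 0 := by
    by_contra h
    push Not at h
    exact hβ (funext h)
  set A : Mt n := fun i j => if ∃ a : Fin r, I.emb a = i ∧ K.emb a = j then 1 else 0 with hA
  have hAa : ∀ i j, A i j = if ∃ a : Fin r, I.emb a = i ∧ K.emb a = j then 1 else 0 := fun _ _ => rfl
  have h1 : (A.submatrix I.emb K.emb).det = 1 := by
    have : A.submatrix I.emb K.emb = 1 := by
      ext a b
      rw [Matrix.submatrix_apply, hAa]
      by_cases hab : a = b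
      · subst hab
        rw [Matrix.one_apply_eq, if_pos ⟨a, rfl, rfl⟩]
      · rw [Matrix.one_apply_ne hab, if_neg]
        rintro ⟨c, hc1, hc2⟩
        exact hab ((I.emb.injective hc1).symm.trans (K.emb.injective hc2))
    rw [this, Matrix.det_one]
  have h2 : ∀ I' K' : JS r n, I' ≠ I → (A.submatrix I'.emb K'.emb).det = 0 := by
    intro I' K' hne
    obtain ⟨i, hi, hiI⟩ := exists_not hne
    obtain ⟨a, ha⟩ := exists_emb I' hi
    refine Matrix.det_eq_zero_of_row_eq_zero a fun b => ?_
    rw [Matrix.submatrix_apply, hAa]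
    refine if_neg ?_
    rintro ⟨c, hc1, -⟩
    apply hiI
    rw [← ha, ← hc1]
    exact emb_mem I c
  have h3 : ∀ I' K' : JS r n, K' ≠ K → (A.submatrix I'.emb K'.emb).det = 0 := by
    intro I' K' hne
    obtain ⟨i, hi, hiK⟩ := exists_not hne
    obtain ⟨b, hb⟩ := exists_emb K' hi
    refine Matrix.det_eq_zero_of_column_eq_zero b fun a => ?_
    rw [Matrix.submatrix_apply, hAa]
    refine if_neg ?_
    rintro ⟨c, -, hc2⟩
    apply hiK
    rw [← hb, ← hc2]
    exact emb_mem K c
  have h4 := hall A
  rw [mc_sum, Finset.sum_eq_single I, Finset.sum_eq_single K, h1, mul_one] at h4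
  · exact mul_ne_zero hI hK h4
  · intro K' _ hne
    rw [h3 I K' hne, mul_zero]
  · intro h
    exact absurd (Finset.mem_univ _) h
  · intro I' _ hne
    refine Finset.sum_eq_zero fun K' _ => ?_
    rw [h2 I' K' hne, mul_zero]
  · intro h
    exact absurd (Finset.mem_univ _) h

end Pool.Agent.Helper2.PR
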